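import Pool.Agent.H81.NCH.Stmts
import Pool.Agent.H81.NCH.Base

/-!
# NCH module ZL: zigzag for the cuts from the left (MP_f18ce0_lc)
-/

set_option autoImplicit false

namespace Pool.Agent.H81.NCH.ZL

open Pool.Agent.H81.NCH

variable {h m : ℕ}

/-! ### Counting -/

theorem count_chain {p : ℕ} {f : ℕ → ℕ} (hp : 1 ≤ p)
    (hmono : ∀ x y, x ≤ y → y < p → f x ≤ f y) (hz : ∀ j, 4 * j + 2 < p → f (4 * j) < f (4 * j + 2)) :
    f 0 + (p + 1) / 4 ≤ f (p - 1) := by
  have key : ∀ j, 4 * j < p → f 0 + j ≤ f (4 * j) := by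
    intro j
    induction j with
    | zero => intro _; simp
    | succ j ih =>
      intro hj
      have h1 := ih (by omega)
      have h2 := hz j (by omega)
      have h3 := hmono (4 * j + 2) (4 * (j + 1)) (by omega) hj
      omega
  rcases Nat.eq_zero_or_pos ((p + 1) / 4) with hk | hk
  · rw [hk]
    have := hmono 0 (p - 1) (by omega) (by omega)
    omega
  · have h1 := key ((p + 1) / 4 - 1) (by omega)
    have h2 := hz ((p + 1) / 4 - 1) (by omega)
    have h3 := hmono (4 * ((p + 1) / 4 - 1) + 2) (p - 1) (by omega) (by omega)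
    omega

theorem count_core {e p : ℕ} {P Q : ℕ → Prop} [DecidablePred P] [DecidablePred Q] {f : ℕ → ℕ}
    (hp : 1 ≤ p) (hmono : ∀ x y, x ≤ y → y < p → f x ≤ f y)
    (hz : ∀ j, 4 * j + 2 < p → f (4 * j) < f (4 * j + 2)) (hf : f (p - 1) ≤ e + 8)
    (hP : ∀ D < e, f 0 ≤ D → P D) (hQ : ∀ D < e, Q D → f (p - 1) ≤ D) :
    (p + 1) / 4 + ((Finset.range e).filter Q).card ≤ ((Finset.range e).filter P).card + 8 := by
  have h1 := count_chain hp hmono hz
  have h2 : e - f 0 ≤ ((Finset.range e).filter P).card := by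
    have : (Finset.Ico (f 0) e) ⊆ (Finset.range e).filter P := by
      intro D hD
      rw [Finset.mem_Ico] at hD
      rw [Finset.mem_filter, Finset.mem_range]
      exact ⟨hD.2, hP D hD.2 hD.1⟩
    have h3 := Finset.card_le_card this
    rw [Nat.card_Ico] at h3
    exact h3
  have h4 : ((Finset.range e).filter Q).card ≤ e - f (p - 1) := by
    have : (Finset.range e).filter Q ⊆ Finset.Ico (f (p - 1)) e := by
      intro D hD
      rw [Finset.mem_filter, Finset.mem_range] at hD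
      rw [Finset.mem_Ico]
      exact ⟨hQ D hD.1 hD.2, hD.1⟩
    have h3 := Finset.card_le_card this
    rw [Nat.card_Ico] at h3
    exact h3
  omega

/-! ### Ancestors of one node -/

theorem anc_inside {E Y D D' : ℕ} (h1 : D ≤ D') (h2 : D' ≤ E) :
    Inside D (Y / 2 ^ (E - D)) D' (Y / 2 ^ (E - D')) := by
  refine ⟨h1, ?_⟩
  rw [Nat.div_div_eq_div_mul, ← pow_add]
  congr 2
  omega

theorem anc_lt {E Y D : ℕ} (hY : Y < 2 ^ E) (hD : D ≤ E) : Y / 2 ^ (E - D) < 2 ^ D := by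
  have h1 : Inside D (Y / 2 ^ (E - D)) E Y := ⟨hD, rfl⟩
  exact h1.pow_lt hY

theorem ce_anti {E Y D D' : ℕ} (h1 : D < D') (h2 : D' ≤ E) (hE : E ≤ h) :
    en h m D' (Y / 2 ^ (E - D')) ≤ ce h m D (Y / 2 ^ (E - D)) ∧
    cs h m D (Y / 2 ^ (E - D)) ≤ st h m D' (Y / 2 ^ (E - D')) := by
  have h3 := nested (h := h) (m := m) (anc_inside (Y := Y) h1.le h2) h1 (by omega)
  exact ⟨h3.2, h3.1⟩

theorem anc9 {e i p D : ℕ} (hp : p ≤ 511) (hD : D ≤ e) :
    (512 * i + p) / 2 ^ (e + 9 - D) = i / 2 ^ (e - D) := by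
  have h1 : e + 9 - D = 9 + (e - D) := by omega
  rw [h1, pow_add, ← Nat.div_div_eq_div_mul]
  congr 1
  norm_num
  omega

/-- if a wall point of the ancestor of `X` is on the other side of `Y`, then the ancestor is also
an ancestor of `Y` -/
theorem common {E X Y D : ℕ} (hD1 : 1 ≤ D) (hD : D < E) (hE : E ≤ h) (hX : X < 2 ^ E)
    (hY : Y < 2 ^ E) (h1 : st h m D (X / 2 ^ (E - D)) ≤ cs h m E Y)
    (h2 : cs h m E Y ≤ en h m D (X / 2 ^ (E - D))) :
    X / 2 ^ (E - D) = Y / 2 ^ (E - D) := by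
  have h3 : Inside D (Y / 2 ^ (E - D)) E Y := ⟨hD.le, rfl⟩
  have h4 := nested (h := h) (m := m) h3 hD hE
  have h5 := cs_eq_st (h := h) (m := m) (show 1 ≤ E by omega) Y
  have h6 := Wd_pos h m (h - E)
  have h7 := cs_le_ce (h := h) (m := m) E Y
  have h8 := en_def (h := h) (m := m) E Y
  have h9 := st_le_cs (h := h) (m := m) D (Y / 2 ^ (E - D))
  have h10 := ce_le_en (h := h) (m := m) D (Y / 2 ^ (E - D))
  exact (same_of_mem (h := h) (m := m) (t := cs h m E Y) hD1 (by omega)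
    (anc_lt hY hD.le) (anc_lt hX hD.le) (by omega) (by omega) h1 h2).symm

/-! ### Levels -/

theorem kap_mono (e i r : ℕ) {t t' : ℕ} (ht : t ≤ t') : kap h m e i r t ≤ kap h m e i r t' := by
  unfold kap
  apply Finset.card_le_card
  apply Finset.filter_subset_filter
  exact Finset.range_mono ht

theorem bas_sib (r : ℕ → ℕ → ℕ) (E y : ℕ) : bas h m r E (2 * y) = bas h m r E (2 * y + 1) := by
  unfold bas
  apply Finset.sum_congr rfl
  intro D hD
  rw [Finset.mem_Ico] at hD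
  have h1 : 2 * y / 2 ^ (E - D) = (2 * y + 1) / 2 ^ (E - D) := by
    have h2 : E - D = 1 + (E - D - 1) := by omega
    rw [h2, pow_add, ← Nat.div_div_eq_div_mul, ← Nat.div_div_eq_div_mul]
    congr 1
    norm_num
    omega
  rw [h1]

theorem sgn_left (E y : ℕ) : sgn E (2 * y) = (-1) ^ E := by
  unfold sgn
  rw [if_neg (by omega)]

theorem sgn_right (E y : ℕ) : sgn E (2 * y + 1) = (-1) ^ (E + 1) := by
  unfold sgn
  rw [if_pos (by omega)]

theorem sgn_cases (E i : ℕ) : sgn E i = 1 ∨ sgn E i = -1 := by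
  unfold sgn
  split_ifs
  · exact neg_one_pow_eq_or ℤ (E + 1)
  · exact neg_one_pow_eq_or ℤ E

/-- the levels in the cores of two siblings -/
theorem zig (hLVG : LVGStmt) {r : ℕ → ℕ → ℕ} (hm : 1 ≤ m) (hr : RB m r) {E y cL cR : ℕ}
    (hE1 : 1 ≤ E) (hE : E ≤ h) (hy : 2 * y + 1 < 2 ^ E)
    (hL1 : cs h m E (2 * y) ≤ cL) (hL2 : cL ≤ ce h m E (2 * y))
    (hR1 : cs h m E (2 * y + 1) ≤ cR) (hR2 : cR ≤ ce h m E (2 * y + 1)) :
    6 * (KK h : ℤ) ≤ (-1) ^ (E + 1) * (phi h m r cR - phi h m r cL) := by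
  have h1 := (hLVG h m r E (2 * y) cL hm hr hE1 hE (by omega)
    ((st_le_cs _ _).trans hL1) (hL2.trans (ce_le_en _ _))).2 hL1 hL2
  have h2 := (hLVG h m r E (2 * y + 1) cR hm hr hE1 hE (by omega)
    ((st_le_cs _ _).trans hR1) (hR2.trans (ce_le_en _ _))).2 hR1 hR2
  rw [sgn_left, bas_sib] at h1
  rw [sgn_right] at h2
  rw [pow_succ] at h2 ⊢
  linarith

/-- the same for nodes one level deeper -/
theorem zig' (hLVG : LVGStmt) {r : ℕ → ℕ → ℕ} (hm : 1 ≤ m) (hr : RB m r) {E y X X' cL cR : ℕ}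
    (hE1 : 1 ≤ E) (hE : E + 1 ≤ h) (hy : 2 * y + 1 < 2 ^ E) (hX : X / 2 = 2 * y)
    (hX' : X' / 2 = 2 * y + 1)
    (hL1 : cs h m (E + 1) X ≤ cL) (hL2 : cL ≤ ce h m (E + 1) X)
    (hR1 : cs h m (E + 1) X' ≤ cR) (hR2 : cR ≤ ce h m (E + 1) X') :
    6 * (KK h : ℤ) ≤ (-1) ^ (E + 1) * (phi h m r cR - phi h m r cL) := by
  have h1 := child_nested (h := h) (m := m) (e := E) (by omega) X
  have h2 := child_nested (h := h) (m := m) (e := E) (by omega) X'
  rw [hX] at h1
  rw [hX'] at h2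
  have h3 := st_le_cs (h := h) (m := m) (E + 1) X
  have h4 := ce_le_en (h := h) (m := m) (E + 1) X
  have h5 := st_le_cs (h := h) (m := m) (E + 1) X'
  have h6 := ce_le_en (h := h) (m := m) (E + 1) X'
  exact zig hLVG hm hr hE1 (by omega) hy (by omega) (by omega) (by omega) (by omega)

/-- monotonicity in a right wall -/
theorem wall_right (hLVF : LVFStmt) (r : ℕ → ℕ → ℕ) {D A t t' : ℕ} (hD1 : 1 ≤ D) (hD : D ≤ h)
    (hA : A < 2 ^ D) (h1 : ce h m D A ≤ t) (htt : t ≤ t') (h2 : t' ≤ en h m D A) :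
    0 ≤ sgn D A * (phi h m r t - phi h m r t') := by
  rw [hLVF h m r D A t hD1 hD hA ⟨false, by simp [InWall]; omega⟩,
    hLVF h m r D A t' hD1 hD hA ⟨false, by simp [InWall]; omega⟩,
    idx_right hD1 h1, idx_right hD1 (h1.trans htt)]
  have h3 := kap_mono (h := h) (m := m) D A (r D A)
    (show en h m D A - t' ≤ en h m D A - t by omega)
  have h4 : (kap h m D A (r D A) (en h m D A - t') : ℤ) ≤ kap h m D A (r D A) (en h m D A - t) := by
    exact_mod_cast h3
  rcases sgn_cases D A with hs | hs <;> rw [hs] <;> linarith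

/-- monotonicity in a left wall -/
theorem wall_left (hLVF : LVFStmt) (r : ℕ → ℕ → ℕ) {D A t t' : ℕ} (hD1 : 1 ≤ D) (hD : D ≤ h)
    (hA : A < 2 ^ D) (h1 : st h m D A ≤ t) (htt : t ≤ t') (h2 : t' ≤ cs h m D A) :
    0 ≤ sgn D A * (phi h m r t' - phi h m r t) := by
  rw [hLVF h m r D A t hD1 hD hA ⟨true, by simp [InWall]; omega⟩,
    hLVF h m r D A t' hD1 hD hA ⟨true, by simp [InWall]; omega⟩,
    idx_left hD1 h2, idx_left hD1 (htt.trans h2)]
  have h3 := kap_mono (h := h) (m := m) D A (r D A)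
    (show t - st h m D A ≤ t' - st h m D A by omega)
  have h4 : (kap h m D A (r D A) (t - st h m D A) : ℤ) ≤ kap h m D A (r D A) (t' - st h m D A) := by
    exact_mod_cast h3
  rcases sgn_cases D A with hs | hs <;> rw [hs] <;> linarith

/-- the contradiction -/
theorem clash {s u K c0 c1 c2 b0 b1 b2 : ℤ} (hK : 0 < K) (hs : s = 1 ∨ s = -1) (hu : u = 1 ∨ u = -1)
    (h0 : |c0 - b0| ≤ K) (h1 : |c1 - b1| ≤ K) (h2 : |c2 - b2| ≤ K)
    (hb1 : 0 ≤ s * (b1 - b0)) (hb2 : 0 ≤ s * (b2 - b1))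
    (hc1 : 6 * K ≤ u * (c1 - c0)) (hc2 : 6 * K ≤ -u * (c2 - c1)) : False := by
  rw [abs_le] at h0 h1 h2
  rcases hs with rfl | rfl <;> rcases hu with rfl | rfl <;> linarith [h0.1, h0.2, h1.1, h1.2, h2.1, h2.2]

theorem KK_pos (h : ℕ) : (0 : ℤ) < KK h := by
  unfold KK
  positivity

end Pool.Agent.H81.NCH.ZL

namespace Pool.Agent.H81.NCH

open ZL

theorem zl_thm (hFAR : FARStmt) (hLVF : LVFStmt) (hLVG : LVGStmt) : ZLStmt := by
  intro h m r e i p b b0 hm hr he hi hp hpb hbb0 hb0 hL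
  obtain ⟨c, b', hL1, hL2⟩ := hL
  have hpow : 2 ^ (e + 9) = 512 * 2 ^ e := by rw [pow_add]; norm_num; ring
  have hXlt : ∀ x, x ≤ 511 → 512 * i + x < 2 ^ (e + 9) := by
    intro x hx
    omega
  rcases Nat.eq_zero_or_pos p with hp0 | hp0
  · subst hp0
    have : Bn h m e i b ≤ Bn h m e i b0 := by
      unfold Bn
      apply Finset.card_le_card
      intro D hD
      rw [Finset.mem_filter] at hD ⊢
      exact ⟨hD.1, hD.2.1, by omega⟩
    omega
  have hord : ∀ x, x < p → en h m (e + 9) (512 * i + x) ≤ st h m (e + 9) (512 * i + p) := by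
    intro x hx
    exact disjoint_same (by omega) (by omega) (by omega) (hXlt p hp)
  have hYst := st_le_cs (h := h) (m := m) (e + 9) (512 * i + p)
  have hYce := cs_le_ce (h := h) (m := m) (e + 9) (512 * i + p)
  -- the depths
  have hD : ∀ x, ∃ D, x < p → (1 ≤ D ∧ D < e + 9 ∧
      ce h m D ((512 * i + p) / 2 ^ (e + 9 - D)) < b' x ∧
      b' x ≤ en h m D ((512 * i + p) / 2 ^ (e + 9 - D))) := by
    intro x
    by_cases hx : x < p
    · obtain ⟨g1, g2, g3, g4, g5⟩ := hL1 x hx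
      have g6 := hord x hx
      obtain ⟨D, d1, d2, d3, d4⟩ := (hFAR h m r (e + 9) (512 * i + x) (c x) (b' x) hm hr (by omega)
        (by omega) (hXlt x (by omega)) g1.le g2.le (by omega) g3).1 (by omega)
      have g7 := nested (h := h) (m := m)
        (show Inside D ((512 * i + x) / 2 ^ (e + 9 - D)) (e + 9) (512 * i + x) from ⟨d2.le, rfl⟩)
        d2 (by omega)
      have g8 := st_le_cs (h := h) (m := m) D ((512 * i + x) / 2 ^ (e + 9 - D))
      have g9 := st_le_cs (h := h) (m := m) (e + 9) (512 * i + x)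
      have g10 := cs_le_ce (h := h) (m := m) (e + 9) (512 * i + x)
      have g11 := ce_le_en (h := h) (m := m) (e + 9) (512 * i + x)
      have g12 := common (h := h) (m := m) d1 d2 (by omega) (hXlt x (by omega)) (hXlt p hp)
        (by omega) (by omega)
      rw [g12] at d3 d4
      exact ⟨D, fun _ => ⟨d1, d2, d3, d4⟩⟩
    · exact ⟨0, fun h => absurd h hx⟩
  choose f hf using hD
  have hmono : ∀ x y, x ≤ y → y < p → f x ≤ f y := by
    intro x y hxy hy
    by_contra hcon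
    push Not at hcon
    obtain ⟨_, g2, _, g4⟩ := hf x (by omega)
    obtain ⟨_, _, g7, _⟩ := hf y hy
    have g9 := (ce_anti (h := h) (m := m) (Y := 512 * i + p) hcon g2.le (by omega)).1
    have g10 := hL2 x y hxy hy
    omega
  have hz : ∀ j, 4 * j + 2 < p → f (4 * j) < f (4 * j + 2) := by
    intro j hj
    by_contra hcon
    push Not at hcon
    have e1 := hmono (4 * j) (4 * j + 1) (by omega) (by omega)
    have e2 := hmono (4 * j + 1) (4 * j + 2) (by omega) (by omega)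
    have e3 : f (4 * j + 1) = f (4 * j) := by omega
    have e4 : f (4 * j + 2) = f (4 * j) := by omega
    obtain ⟨a1, a2, a3, a4⟩ := hf (4 * j) (by omega)
    obtain ⟨_, _, b3, b4⟩ := hf (4 * j + 1) (by omega)
    obtain ⟨_, _, c3, c4⟩ := hf (4 * j + 2) (by omega)
    rw [e3] at b3 b4
    rw [e4] at c3 c4
    have hA := anc_lt (hXlt p hp) a2.le
    have w1 := wall_right hLVF r (t := b' (4 * j + 1)) (t' := b' (4 * j)) a1 (by omega) hA b3.le
      (hL2 _ _ (by omega) (by omega)) a4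
    have w2 := wall_right hLVF r (t := b' (4 * j + 2)) (t' := b' (4 * j + 1)) a1 (by omega) hA c3.le
      (hL2 _ _ (by omega) (by omega)) b4
    obtain ⟨l1, l2, l3, _, _⟩ := hL1 (4 * j) (by omega)
    obtain ⟨m1, m2, m3, _, _⟩ := hL1 (4 * j + 1) (by omega)
    obtain ⟨n1, n2, n3, _, _⟩ := hL1 (4 * j + 2) (by omega)
    have hq1 : 512 * i + 4 * j = 2 * (256 * i + 2 * j) := by ring
    have hq2 : 512 * i + (4 * j + 1) = 2 * (256 * i + 2 * j) + 1 := by ring
    have z1 := zig (h := h) (m := m) hLVG hm hr (E := e + 9) (y := 256 * i + 2 * j) (cL := c (4 * j))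
      (cR := c (4 * j + 1)) (by omega) (by omega) (by omega) (by rw [← hq1]; exact l1.le)
      (by rw [← hq1]; exact l2.le) (by rw [← hq2]; exact m1.le) (by rw [← hq2]; exact m2.le)
    have hpow8 : 2 ^ (e + 8) = 256 * 2 ^ e := by rw [pow_add]; norm_num; ring
    have z2 := zig' (h := h) (m := m) hLVG hm hr (E := e + 8) (y := 128 * i + j) (X := 512 * i + (4 * j + 1))
      (X' := 512 * i + (4 * j + 2)) (cL := c (4 * j + 1)) (cR := c (4 * j + 2)) (by omega)
      (by omega) (by omega) (by omega) (by omega) m1.le m2.le n1.le n2.le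
    have hu := neg_one_pow_eq_or ℤ (e + 9 + 1)
    refine clash (KK_pos h) (sgn_cases (f (4 * j)) _) hu l3 m3 n3 w1 w2 z1 ?_
    have hneg : -(-1 : ℤ) ^ (e + 9 + 1) = (-1) ^ (e + 8 + 1) := by
      rw [pow_succ (-1 : ℤ) (e + 9)]
      ring
    rw [hneg]
    exact z2
  obtain ⟨a1, a2, a3, a4⟩ := hf (p - 1) (by omega)
  obtain ⟨b1, b2, b3, b4⟩ := hf 0 hp0
  obtain ⟨_, _, _, _, l5⟩ := hL1 0 hp0
  obtain ⟨_, _, _, m4, _⟩ := hL1 (p - 1) (by omega)
  unfold Bn
  refine count_core hp0 hmono hz (by omega) ?_ ?_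
  · intro D hDe hD0
    refine ⟨by omega, ?_⟩
    rw [← anc9 (i := i) hp hDe.le]
    rcases Nat.eq_or_lt_of_le hD0 with hD1 | hD1
    · rw [← hD1]
      omega
    · have g9 := (ce_anti (h := h) (m := m) (Y := 512 * i + p) hD1 (by omega : D ≤ e + 9)
        (by omega)).1
      have g10 := ce_le_en (h := h) (m := m) D ((512 * i + p) / 2 ^ (e + 9 - D))
      omega
  · intro D hDe hQ
    obtain ⟨hD1, hQ⟩ := hQ
    rw [← anc9 (i := i) hp hDe.le] at hQ
    by_contra hcon
    push Not at hcon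
    have g9 := (ce_anti (h := h) (m := m) (Y := 512 * i + p) hcon a2.le (by omega)).1
    omega

end Pool.Agent.H81.NCH
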