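import Pool.Agent.H97.NCH.ZL

/-!
# NCH module ZR: zigzag for the cuts from the right (MP_f18ce0_lc)
-/

set_option autoImplicit false

namespace Pool.Agent.H81.NCH

open ZL

theorem zr_thm (hFAR : FARStmt) (hLVF : LVFStmt) (hLVG : LVGStmt) : ZRStmt := by
  intro h m r e i q a a0 hm hr he hi hq haq ha0 had hR
  obtain ⟨c, a', hR1, hR2⟩ := hR
  have hpow : 2 ^ (e + 9) = 512 * 2 ^ e := by rw [pow_add]; norm_num; ring
  have hpow8 : 2 ^ (e + 8) = 256 * 2 ^ e := by rw [pow_add]; norm_num; ring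
  have hXlt : ∀ x, x ≤ 511 → 512 * i + x < 2 ^ (e + 9) := by
    intro x hx
    omega
  rcases Nat.eq_zero_or_pos q with hq0 | hq0
  · subst hq0
    have : An h m e i a ≤ An h m e i a0 := by
      unfold An
      apply Finset.card_le_card
      intro D hD
      rw [Finset.mem_filter] at hD ⊢
      exact ⟨hD.1, hD.2.1, by omega⟩
    omega
  have hord : ∀ x, x < q → en h m (e + 9) (512 * i + (511 - q)) ≤
      st h m (e + 9) (512 * i + (511 - x)) := by
    intro x hx
    exact disjoint_same (by omega) (by omega) (by omega) (hXlt (511 - x) (by omega))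
  have hYst := st_le_cs (h := h) (m := m) (e + 9) (512 * i + (511 - q))
  have hYce := cs_le_ce (h := h) (m := m) (e + 9) (512 * i + (511 - q))
  have hYen := ce_le_en (h := h) (m := m) (e + 9) (512 * i + (511 - q))
  have hYlt := hXlt (511 - q) (by omega)
  -- the depths
  have hD : ∀ x, ∃ D, x < q → (1 ≤ D ∧ D < e + 9 ∧
      st h m D ((512 * i + (511 - q)) / 2 ^ (e + 9 - D)) ≤ a' x ∧
      a' x < cs h m D ((512 * i + (511 - q)) / 2 ^ (e + 9 - D))) := by
    intro x
    by_cases hx : x < q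
    · obtain ⟨g1, g2, g3, g4, g5⟩ := hR1 x hx
      have g6 := hord x hx
      have g3' : |phi h m r (c x) - phi h m r (a' x)| ≤ (KK h : ℤ) := by
        rw [abs_sub_comm]
        exact g3
      obtain ⟨D, d1, d2, d3, d4⟩ := (hFAR h m r (e + 9) (512 * i + (511 - x)) (c x) (a' x) hm hr
        (by omega) (by omega) (hXlt (511 - x) (by omega)) g1.le g2.le (by omega) g3').2 (by omega)
      have g7 := nested (h := h) (m := m)
        (show Inside D ((512 * i + (511 - x)) / 2 ^ (e + 9 - D)) (e + 9) (512 * i + (511 - x)) from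
          ⟨d2.le, rfl⟩) d2 (by omega)
      have g8 := ce_le_en (h := h) (m := m) D ((512 * i + (511 - x)) / 2 ^ (e + 9 - D))
      have g9 := st_le_cs (h := h) (m := m) (e + 9) (512 * i + (511 - x))
      have g10 := cs_le_ce (h := h) (m := m) (e + 9) (512 * i + (511 - x))
      have g11 := ce_le_en (h := h) (m := m) (e + 9) (512 * i + (511 - x))
      have g12 := common (h := h) (m := m) d1 d2 (by omega) (hXlt (511 - x) (by omega)) hYlt
        (by omega) (by omega)
      rw [g12] at d3 d4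
      exact ⟨D, fun _ => ⟨d1, d2, d3, d4⟩⟩
    · exact ⟨0, fun h => absurd h hx⟩
  choose f hf using hD
  have hmono : ∀ x y, x ≤ y → y < q → f x ≤ f y := by
    intro x y hxy hy
    by_contra hcon
    push Not at hcon
    obtain ⟨_, g2, g3, _⟩ := hf x (by omega)
    obtain ⟨_, _, _, g8⟩ := hf y hy
    have g9 := (ce_anti (h := h) (m := m) (Y := 512 * i + (511 - q)) hcon g2.le (by omega)).2
    have g10 := hR2 x y hxy hy
    omega
  have hz : ∀ j, 4 * j + 2 < q → f (4 * j) < f (4 * j + 2) := by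
    intro j hj
    by_contra hcon
    push Not at hcon
    have e1 := hmono (4 * j) (4 * j + 1) (by omega) (by omega)
    have e2 := hmono (4 * j + 1) (4 * j + 2) (by omega) (by omega)
    have e3 : f (4 * j + 1) = f (4 * j) := by omega
    have e4 : f (4 * j + 2) = f (4 * j) := by omega
    obtain ⟨a1, a2, a3, a4⟩ := hf (4 * j) (by omega)
    obtain ⟨_, _, b3, b4⟩ := hf (4 * j + 1) (by omega)
    obtain ⟨_, _, c3, c4⟩ := hf (4 * j + 2) (by omega)
    rw [e3] at b3 b4
    rw [e4] at c3 c4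
    have hA := anc_lt hYlt a2.le
    have w1 := wall_left hLVF r (t := a' (4 * j)) (t' := a' (4 * j + 1)) a1 (by omega) hA a3
      (hR2 _ _ (by omega) (by omega)) b4.le
    have w2 := wall_left hLVF r (t := a' (4 * j + 1)) (t' := a' (4 * j + 2)) a1 (by omega) hA b3
      (hR2 _ _ (by omega) (by omega)) c4.le
    obtain ⟨l1, l2, l3, _, _⟩ := hR1 (4 * j) (by omega)
    obtain ⟨m1, m2, m3, _, _⟩ := hR1 (4 * j + 1) (by omega)
    obtain ⟨n1, n2, n3, _, _⟩ := hR1 (4 * j + 2) (by omega)
    rw [abs_sub_comm] at l3 m3 n3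
    have hq1 : 512 * i + (511 - 4 * j) = 2 * (256 * i + (255 - 2 * j)) + 1 := by omega
    have hq2 : 512 * i + (511 - (4 * j + 1)) = 2 * (256 * i + (255 - 2 * j)) := by omega
    have z1 := zig (h := h) (m := m) hLVG hm hr (E := e + 9) (y := 256 * i + (255 - 2 * j))
      (cL := c (4 * j + 1)) (cR := c (4 * j)) (by omega) (by omega) (by omega)
      (by rw [← hq2]; exact m1.le) (by rw [← hq2]; exact m2.le) (by rw [← hq1]; exact l1.le)
      (by rw [← hq1]; exact l2.le)
    have z2 := zig' (h := h) (m := m) hLVG hm hr (E := e + 8) (y := 128 * i + (127 - j))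
      (X := 512 * i + (511 - (4 * j + 2))) (X' := 512 * i + (511 - (4 * j + 1)))
      (cL := c (4 * j + 2)) (cR := c (4 * j + 1)) (by omega)
      (by omega) (by omega) (by omega) (by omega) n1.le n2.le m1.le m2.le
    have hu := neg_one_pow_eq_or ℤ (e + 8 + 1)
    have hneg : (-1 : ℤ) ^ (e + 9 + 1) = -(-1) ^ (e + 8 + 1) := by
      rw [pow_succ (-1 : ℤ) (e + 9)]
      ring
    rw [hneg] at z1
    refine clash (KK_pos h) (sgn_cases (f (4 * j)) _) hu l3 m3 n3 w1 w2 ?_ ?_
    · linarith
    · linarith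
  obtain ⟨a1, a2, a3, a4⟩ := hf (q - 1) (by omega)
  obtain ⟨b1, b2, b3, b4⟩ := hf 0 hq0
  obtain ⟨_, _, _, l4, _⟩ := hR1 0 hq0
  obtain ⟨_, _, _, _, m5⟩ := hR1 (q - 1) (by omega)
  have hq' : 511 - q ≤ 511 := by omega
  unfold An
  refine count_core hq0 hmono hz (by omega) ?_ ?_
  · intro D hDe hD0
    refine ⟨by omega, ?_⟩
    rw [← anc9 (i := i) hq' hDe.le]
    rcases Nat.eq_or_lt_of_le hD0 with hD1 | hD1
    · rw [← hD1]
      omega
    · have g9 := (ce_anti (h := h) (m := m) (Y := 512 * i + (511 - q)) hD1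
        (by omega : D ≤ e + 9) (by omega)).2
      have g10 := st_le_cs (h := h) (m := m) D ((512 * i + (511 - q)) / 2 ^ (e + 9 - D))
      omega
  · intro D hDe hQ
    obtain ⟨hD1, hQ⟩ := hQ
    rw [← anc9 (i := i) hq' hDe.le] at hQ
    by_contra hcon
    push Not at hcon
    have g9 := (ce_anti (h := h) (m := m) (Y := 512 * i + (511 - q)) hcon a2.le (by omega)).2
    omega

end Pool.Agent.H81.NCH
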